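import Pool.Agent.V11230.DS4

/-!
# Foremost coverage of a star with recurrence 2 is NP-hard

A reduction from 3SAT.  Except for at most `W` idle times, the agent visits a new leaf in each pair
of consecutive times.  Many separator leaves, whose edge is present at two consecutive times only
once, force the agent to be idle once in each half of a block, where the blocks correspond to the
variables; the position of the second idle time in the block is the value of the variable.  Before
it, the agent can visit leaves at odd times only, and after it at even times only.  For each clause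
there are more than `2 W + 1` leaves that can be visited without an idle time only if a literal is
true, apart from at most `W` exceptional times.
-/

set_option autoImplicit false

namespace Pool.Agent.NPC.V11230.DS

open Pool.Agent.NPC

/-! ### Polynomial time -/

section

variable {α : Type} [TEnc α]

theorem ud (m : ℕ) {φ : α → List Cl} (h : Poly φ) : UPoly (fun a => m * (φ a).length) :=
  UPoly.mul (UPoly.const m) (UPoly.length h)

theorem u_vn {φ : α → List Cl} (h : Poly φ) : UPoly (fun a => vn (φ a)) := ud 3 h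

theorem u_vK {φ : α → List Cl} (h : Poly φ) : UPoly (fun a => vK (φ a)) :=
  UPoly.add (UPoly.mul (UPoly.const 4) (u_vn h)) (UPoly.const 2)

theorem u_vC {φ : α → List Cl} (h : Poly φ) : UPoly (fun a => vC (φ a)) :=
  UPoly.mul (UPoly.length h) (u_vK h)

theorem u_vQ {φ : α → List Cl} (h : Poly φ) : UPoly (fun a => vQ (φ a)) :=
  UPoly.add (UPoly.mul (UPoly.const 2) (u_vK h)) (UPoly.mul (UPoly.const 2) (u_vC h))

theorem u_vP {φ : α → List Cl} (h : Poly φ) : UPoly (fun a => vP (φ a)) :=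
  UPoly.add (UPoly.mul (UPoly.const 2) (u_vQ h)) (UPoly.const 2)

theorem u_vN {φ : α → List Cl} (h : Poly φ) : UPoly (fun a => vN (φ a)) :=
  UPoly.mul (u_vn h) (u_vQ h)

theorem poly_eqk {u : α → ℕ} (hu : Poly u) (m : ℕ) : Poly (fun a => decide (u a = m)) :=
  Poly.decide_eq hu (Poly.const m)

theorem poly_mod2 {u : α → ℕ} (hu : Poly u) : Poly (fun a => u a % 2) :=
  Poly.mod hu (Poly.const 2)

theorem poly_m2 {u : α → ℕ} (hu : Poly u) : Poly (fun a => 2 * u a) :=
  Poly.mul (Poly.const 2) hu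

theorem poly_p {u : α → ℕ} (hu : Poly u) (m : ℕ) : Poly (fun a => u a + m) :=
  Poly.add hu (Poly.const m)

theorem poly_inC {c : α → Cl} {l : α → Lit ℕ} (hc : Poly c) (hl : Poly l) :
    Poly (fun a => inC (c a) (l a)) := by
  unfold inC
  exact Poly.or (Poly.or (Poly.decide_eq (Poly.fst hc) hl)
    (Poly.decide_eq (Poly.fst (Poly.snd hc)) hl)) (Poly.decide_eq (Poly.snd (Poly.snd hc)) hl)

theorem poly_sepP {T t : α → ℕ} (hT : Poly T) (ht : Poly t) :
    Poly (fun a => sepP (T a) (t a)) := by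
  have h := Poly.decide_eq (poly_mod2 ht) (poly_mod2 hT)
  unfold sepP
  refine Poly.ite (Poly.decide_le ht hT) h ((Poly.not h).congr fun a => ?_)
  simp

theorem poly_posP {T t : α → ℕ} (hT : Poly T) (ht : Poly t) :
    Poly (fun a => posP (T a) (t a)) := by
  unfold posP
  exact Poly.ite (Poly.decide_le ht hT) (poly_eqk (poly_mod2 ht) 0) (poly_eqk (poly_mod2 ht) 1)

theorem poly_negP {T t : α → ℕ} (hT : Poly T) (ht : Poly t) :
    Poly (fun a => negP (T a) (t a)) := by
  unfold negP
  exact Poly.or (poly_eqk ht 0)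
    (Poly.ite (Poly.decide_le ht hT) (poly_eqk (poly_mod2 ht) 1) (poly_eqk (poly_mod2 ht) 0))

variable {K C P n l t : α → ℕ}

theorem poly_sepT {b k : α → ℕ} (hK : Poly K) (hC : Poly C) (hP : Poly P) (hb : Poly b)
    (hk : Poly k) : Poly (fun a => sepT (K a) (C a) (P a) (b a) (k a)) := by
  unfold sepT
  exact Poly.add (Poly.mul hP (Poly.div hb (Poly.const 2)))
    (Poly.ite (poly_eqk (poly_mod2 hb) 0) (poly_p (poly_m2 hk) 1)
      (poly_p (poly_m2 (Poly.add (Poly.add hK (poly_m2 hC)) hk)) 2))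

theorem poly_clP {cl : α → Cl} {c : α → ℕ} (hcl : Poly cl) (hK : Poly K) (hC : Poly C)
    (hP : Poly P) (hc : Poly c) (ht : Poly t) :
    Poly (fun a => clP (cl a) (K a) (C a) (P a) (c a) (t a)) := by
  have hd := Poly.div ht hP
  have hm := Poly.mod ht hP
  unfold clP
  exact Poly.ite ((poly_inC hcl (Poly.pair (Poly.const true) hd)).congr fun a => by simp)
    (poly_posP (Poly.add (poly_p (poly_m2 hK) 2) (poly_m2 hc)) hm)
    (Poly.ite ((poly_inC hcl (Poly.pair (Poly.const false) hd)).congr fun a => by simp)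
      (poly_negP (Poly.add (poly_p (poly_m2 hK) 1) (poly_m2 (Poly.add hC hc))) hm)
      (poly_eqk (poly_mod2 hm) 0))

theorem poly_pr {φ : α → List Cl} (hφ : Poly φ) (hK : Poly K) (hC : Poly C) (hP : Poly P)
    (hn : Poly n) (hl : Poly l) (ht : Poly t) :
    Poly (fun a => pr (φ a) (K a) (C a) (P a) (n a) (l a) (t a)) := by
  have h2 : Poly (fun a => 2 * n a * K a) := Poly.mul (poly_m2 hn) hK
  have h3 := Poly.sub hl h2
  unfold pr
  exact Poly.ite (Poly.decide_lt hl h2)
    (poly_sepP (poly_sepT hK hC hP (Poly.div hl hK) (Poly.mod hl hK)) ht)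
    (Poly.ite (Poly.decide_lt hl (Poly.add h2 hC))
      (poly_clP (Poly.getD hφ (Poly.div h3 hK) (Poly.const dcl)) hK hC hP h3 ht)
      (Poly.const true))

theorem poly_matOf {m : α → ℕ} {f : α → ℕ → Bool} (hm : UPoly m)
    (hf : Poly (fun p : α × ℕ => f p.1 p.2)) : Poly (fun a => matOf (m a) (f a)) := by
  unfold matOf
  have hr : Poly (fun a => List.range (m a + 1)) := UPoly.range (UPoly.add hm (UPoly.const 1))
  refine Poly.map (F := fun (a : α) (i : ℕ) => (List.range (m a + 1)).map (fun j =>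
    if i = 0 then (decide (1 ≤ j) && f a (j - 1)) else (decide (j = 0) && f a (i - 1)))) hr ?_
  refine Poly.map (F := fun (p : α × ℕ) (j : ℕ) =>
    if p.2 = 0 then (decide (1 ≤ j) && f p.1 (j - 1)) else (decide (j = 0) && f p.1 (p.2 - 1)))
    (hr.comp (Poly.fst Poly.id)) ?_
  have hi : Poly (fun w : (α × ℕ) × ℕ => w.1.2) := Poly.snd (Poly.fst Poly.id)
  have hj : Poly (fun w : (α × ℕ) × ℕ => w.2) := Poly.snd Poly.id
  have ha : Poly (fun w : (α × ℕ) × ℕ => w.1.1) := Poly.fst (Poly.fst Poly.id)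
  have f1 : Poly (fun w : (α × ℕ) × ℕ => f w.1.1 (w.2 - 1)) :=
    hf.comp (Poly.pair ha (Poly.sub hj (Poly.const 1)))
  have f2 : Poly (fun w : (α × ℕ) × ℕ => f w.1.1 (w.1.2 - 1)) :=
    hf.comp (Poly.pair ha (Poly.sub hi (Poly.const 1)))
  exact Poly.ite (poly_eqk hi 0) (Poly.and (Poly.decide_le (Poly.const 1) hj) f1)
    (Poly.and (poly_eqk hj 0) f2)

end

theorem poly_full : Poly (fun φ : List Cl => matOf (vN φ) (fun _ => true)) :=
  poly_matOf (f := fun _ _ => true) (u_vN Poly.id) (Poly.const true)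

theorem poly_inst : Poly inst := by
  have uT : UPoly (fun φ : List Cl => vn φ * vP φ) := UPoly.mul (u_vn Poly.id) (u_vP Poly.id)
  unfold inst starInst sched
  refine Poly.pair poly_full (Poly.pair (Poly.const 0) (Poly.pair
    (Poly.sub uT.toPoly (Poly.const 1)) (Poly.append ?_ (Poly.cons (Poly.pair poly_full
      (Poly.const 1)) (Poly.const [])))))
  refine Poly.map (F := fun (_ : List Cl) (M : Mat) => (M, 1))
    (l := fun φ : List Cl => (List.range (vn φ * vP φ)).map (fun t => matOf (vN φ)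
      (fun l => pr φ (vK φ) (vC φ) (vP φ) (vn φ) l t))) ?_ (Poly.pair (Poly.snd Poly.id)
        (Poly.const 1))
  refine Poly.map (F := fun (φ : List Cl) (t : ℕ) => matOf (vN φ)
    (fun l => pr φ (vK φ) (vC φ) (vP φ) (vn φ) l t)) (UPoly.range uT) ?_
  have hφ1 : Poly (fun p : List Cl × ℕ => p.1) := Poly.fst Poly.id
  refine poly_matOf (m := fun p : List Cl × ℕ => vN p.1)
    (f := fun (p : List Cl × ℕ) (l : ℕ) => pr p.1 (vK p.1) (vC p.1) (vP p.1) (vn p.1) l p.2)
    (u_vN hφ1) ?_
  have hφ2 : Poly (fun w : (List Cl × ℕ) × ℕ => w.1.1) := Poly.fst (Poly.fst Poly.id)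
  exact poly_pr hφ2 (u_vK hφ2).toPoly (u_vC hφ2).toPoly (u_vP hφ2).toPoly (u_vn hφ2).toPoly
    (Poly.snd Poly.id) (Poly.snd (Poly.fst Poly.id))

theorem hardPr_canVisit {Δ : ℕ} (hΔ : 2 ≤ Δ) : HardPr (Valid Δ) CanVisit :=
  hardPr_SAT3b.trans poly_inst (fun φ _ => valid_inst φ hΔ) (fun _ h => sat_iff h.1 h.2.1 h.2.2)

theorem poly_eq_true : Poly (fun y : List Bool => decide (y = [true])) :=
  Poly.decide_eq Poly.id (Poly.const [true])

end Pool.Agent.NPC.V11230.DS

namespace Pool.Agent.Results.MP_21485e_lc.StarDeltaTwo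

open Pool.Agent.NPC Pool.Agent.NPC.V11230.DS

/-- **DMVP on stars in `B_Δ` is NP-hard for each `Δ ≥ 2`.** -/
theorem result (Δ : ℕ) (hΔ : 2 ≤ Δ) :
    (∀ L, InNP L → ∃ f : List Bool → Inst, PolyTime (fun x => bits (f x)) ∧
      ∀ x, Valid Δ (f x) ∧ (x ∈ L ↔ CanVisit (f x))) ∧
    (∀ D : List Bool → List Bool, PolyTime D →
      (∀ I, Valid Δ I → (D (bits I) = [true] ↔ CanVisit I)) →
      ∀ L, InNP L → InP L) := by
  have key : ∀ L, InNP L → ∃ f : List Bool → Inst, PolyTime (fun x => bits (f x)) ∧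
      ∀ x, Valid Δ (f x) ∧ (x ∈ L ↔ CanVisit (f x)) := by
    intro L hL
    obtain ⟨f, hf, hpr, hfL⟩ := hardPr_canVisit hΔ L hL
    exact ⟨f, PC.toPolyTime hf, fun x => ⟨hpr x, hfL x⟩⟩
  refine ⟨key, ?_⟩
  intro D hD h L hL
  obtain ⟨f, hf, hpr, hfL⟩ := hardPr_canVisit hΔ L hL
  have h1 : PC (fun x : List Bool => x) (fun x : List Bool => x) (fun x => bits (f x)) := hf
  have h2 : PC (fun x : List Bool => x) (fun x : List Bool => x) D :=
    H642R2.TMSim.polyTime_toPC hD
  have h3 : PC (fun x : List Bool => x) (fun x : List Bool => x)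
      (fun x => D (bits (f x))) := PC.comp h2 h1
  refine ⟨_, polyTime_test (PC.toPolyTime h3) poly_eq_true, fun x => ?_⟩
  rw [hfL x, ← h _ (hpr x)]
  simp

end Pool.Agent.Results.MP_21485e_lc.StarDeltaTwo
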